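import Mathlib

-- part MP_26f8ef_al.Nil
section

/-! The equation `y² g y⁻¹ g⁻¹ = m` in nilpotent groups, and a criterion for parafreeness. -/

namespace Pool.Agent.MP_26f8ef_al

open Subgroup
open scoped commutatorElement

/-- the word `y² g y⁻¹ g⁻¹` -/
def fw {Q : Type*} [Group Q] (g y : Q) : Q := y * y * g * y⁻¹ * g⁻¹

/-- the reversed word `g⁻¹ y⁻¹ g y²` -/
def fb {Q : Type*} [Group Q] (g y : Q) : Q := g⁻¹ * y⁻¹ * g * y * y

lemma map_fw {Q R F : Type*} [Group Q] [Group R] [FunLike F Q R] [MonoidHomClass F Q R] (φ : F)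
    (g y : Q) : φ (fw g y) = fw (φ g) (φ y) := by simp [fw]

lemma map_fb {Q R F : Type*} [Group Q] [Group R] [FunLike F Q R] [MonoidHomClass F Q R] (φ : F)
    (g y : Q) : φ (fb g y) = fb (φ g) (φ y) := by simp [fb]

lemma fw_central {Q : Type*} [Group Q] (g y e : Q) (he : ∀ x, x * e = e * x) :
    fw g (y * e) = fw g y * e := by
  have h1 : ∀ x, e * x = x * e := fun x => (he x).symm
  have h2 : ∀ x, e⁻¹ * x = x * e⁻¹ := fun x => by
    have := (Commute.inv_left (show Commute e x from h1 x)); exact this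
  unfold fw
  calc y * e * (y * e) * g * (y * e)⁻¹ * g⁻¹
      = y * (e * y) * (e * g) * e⁻¹ * y⁻¹ * g⁻¹ := by group
    _ = y * (y * e) * (g * e) * e⁻¹ * y⁻¹ * g⁻¹ := by rw [h1 y, h1 g]
    _ = y * y * (e * (g * y⁻¹ * g⁻¹)) := by group
    _ = y * y * ((g * y⁻¹ * g⁻¹) * e) := by rw [h1]
    _ = y * y * g * y⁻¹ * g⁻¹ * e := by group

abbrev lcs (Q : Type*) [Group Q] (n : ℕ) : Subgroup Q := (⊤ : Subgroup Q).lowerCentralSeries n

lemma central_mod {Q : Type*} [Group Q] {j : ℕ} {e : Q} (he : e ∈ lcs Q j)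
    (x : Q ⧸ lcs Q (j + 1)) :
    x * (QuotientGroup.mk' (lcs Q (j + 1)) e) = QuotientGroup.mk' (lcs Q (j + 1)) e * x := by
  obtain ⟨x, rfl⟩ := QuotientGroup.mk'_surjective _ x
  rw [← map_mul, ← map_mul, QuotientGroup.mk'_apply, QuotientGroup.mk'_apply, QuotientGroup.eq]
  have : ⁅e⁻¹, x⁻¹⁆ ∈ lcs Q (j + 1) :=
    commutator_mem_commutator (inv_mem he) (mem_top _)
  convert this using 1
  simp [commutatorElement_def, mul_assoc]

/-- the key congruence -/
lemma fw_step {Q : Type*} [Group Q] {j : ℕ} (g y : Q) {e : Q} (he : e ∈ lcs Q j) :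
    (fw g y * e)⁻¹ * fw g (y * e) ∈ lcs Q (j + 1) := by
  rw [← QuotientGroup.eq]
  change QuotientGroup.mk' _ _ = QuotientGroup.mk' _ _
  rw [map_mul, map_fw, map_fw, map_mul, fw_central _ _ _ (central_mod he)]

lemma exists_approx {Q : Type*} [Group Q] (g m : Q) (j : ℕ) :
    ∃ y, (fw g y)⁻¹ * m ∈ lcs Q j := by
  induction j with
  | zero => exact ⟨1, mem_top _⟩
  | succ j ih =>
    obtain ⟨y, hy⟩ := ih
    refine ⟨y * ((fw g y)⁻¹ * m), ?_⟩
    have := inv_mem (fw_step g y hy)
    simpa [mul_assoc] using this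

lemma exists_sol {Q : Type*} [Group Q] {k : ℕ} (hk : lcs Q k = ⊥) (g m : Q) :
    ∃ y, fw g y = m := by
  obtain ⟨y, hy⟩ := exists_approx g m k
  rw [hk, mem_bot, inv_mul_eq_one] at hy
  exact ⟨y, hy⟩

lemma approx_mem {Q : Type*} [Group Q] (H : Subgroup Q) {g y : Q} (hg : g ∈ H)
    (hm : fw g y ∈ H) (j : ℕ) : ∃ h ∈ H, h⁻¹ * y ∈ lcs Q j := by
  induction j with
  | zero => exact ⟨1, one_mem _, mem_top _⟩
  | succ j ih =>
    obtain ⟨h, hh, hy⟩ := ih
    have h1 := inv_mem (fw_step g h hy)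
    rw [mul_inv_cancel_left] at h1
    have hf : fw g h ∈ H := by
      unfold fw
      exact mul_mem (mul_mem (mul_mem (mul_mem hh hh) hg) (inv_mem hh)) (inv_mem hg)
    refine ⟨h * ((fw g h)⁻¹ * fw g y), mul_mem hh (mul_mem (inv_mem hf) hm), ?_⟩
    simpa [mul_assoc] using h1

lemma sol_mem {Q : Type*} [Group Q] (H : Subgroup Q) {k : ℕ} (hk : lcs Q k ≤ H) {g y : Q}
    (hg : g ∈ H) (hm : fw g y ∈ H) : y ∈ H := by
  obtain ⟨h, hh, hy⟩ := approx_mem H hg hm k
  simpa using mul_mem hh (hk hy)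

lemma map_lcs_le {Q R : Type*} [Group Q] [Group R] (φ : Q →* R) (k : ℕ) {x : Q}
    (hx : x ∈ lcs Q k) : φ x ∈ lcs R k := by
  have : (lcs Q k).map φ ≤ lcs R k := by
    rw [map_lowerCentralSeries]; exact lowerCentralSeries_mono k le_top
  exact this (mem_map_of_mem φ hx)

lemma lcs_quot (F : Type*) [Group F] (k : ℕ) : lcs (F ⧸ lcs F k) k = ⊥ := by
  have h := map_lowerCentralSeries (⊤ : Subgroup F) (QuotientGroup.mk' (lcs F k)) k
  rw [map_top_of_surjective _ (QuotientGroup.mk'_surjective _)] at h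
  unfold lcs
  rw [← h, Subgroup.map_eq_bot_iff, QuotientGroup.ker_mk']

/-- criterion for an isomorphism of the `k`-th nilpotent quotients -/
lemma quot_equiv {G F : Type*} [Group G] [Group F] (k : ℕ) (ι : F →* G)
    (φ : G →* F ⧸ lcs F k) (hφ : ∀ x, φ (ι x) = QuotientGroup.mk x)
    (hs : ι.range ⊔ lcs G k = ⊤) : Nonempty ((G ⧸ lcs G k) ≃* (F ⧸ lcs F k)) := by
  have hker : φ.ker = lcs G k := by
    apply le_antisymm
    · intro g hg
      have hg' : g ∈ ι.range ⊔ lcs G k := hs ▸ mem_top g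
      obtain ⟨_, ⟨x, rfl⟩, n, hn, rfl⟩ := mem_sup_of_normal_right.1 hg'
      have hn1 : φ n = 1 := by
        have := map_lcs_le φ k hn
        rwa [lcs_quot, mem_bot] at this
      rw [MonoidHom.mem_ker, map_mul, hn1, mul_one, hφ, QuotientGroup.eq_one_iff] at hg
      exact mul_mem (map_lcs_le ι k hg) hn
    · intro n hn
      have := map_lcs_le φ k hn
      rwa [lcs_quot, mem_bot] at this
  have hsurj : Function.Surjective φ := by
    intro y
    obtain ⟨x, rfl⟩ := QuotientGroup.mk_surjective y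
    exact ⟨ι x, hφ x⟩
  exact ⟨(QuotientGroup.quotientMulEquivOfEq hker.symm).trans
    (QuotientGroup.quotientKerEquivOfSurjective φ hsurj)⟩

end Pool.Agent.MP_26f8ef_al

end

-- part MP_26f8ef_al.Cong
section

/-! The `3`-adic congruence filtration of `GL₃(ℤ₍₃₎)` and non-commuting conjugates. -/

namespace Pool.Agent.MP_26f8ef_al

open Matrix
open scoped commutatorElement

/-- rationals with denominator prime to three -/
def R3 : Subring ℚ where
  carrier := {x | ¬ 3 ∣ x.den}
  mul_mem' := fun {a b} ha hb h => by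
    rcases (Nat.Prime.dvd_mul Nat.prime_three).1 (h.trans (Rat.mul_den_dvd a b)) with h | h
    exacts [ha h, hb h]
  one_mem' := by simp
  add_mem' := fun {a b} ha hb h => by
    rcases (Nat.Prime.dvd_mul Nat.prime_three).1 (h.trans (Rat.add_den_dvd a b)) with h | h
    exacts [ha h, hb h]
  zero_mem' := by simp
  neg_mem' := fun {a} ha => by simpa using ha

lemma R3_sep {x : ℚ} (h : ∀ j : ℕ, ∃ r ∈ R3, x = 3 ^ j * r) : x = 0 := by
  have h1 : ∀ j : ℕ, 3 ^ j ∣ x.num.natAbs := by
    intro j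
    obtain ⟨r, hr, e⟩ := h j
    have e2 : x.num * r.den = 3 ^ j * (r.num * x.den) := by
      have a1 : (x.num : ℚ) = x * x.den := (Rat.mul_den_eq_num x).symm
      have a2 : (r.num : ℚ) = r * r.den := (Rat.mul_den_eq_num r).symm
      have : (x.num : ℚ) * r.den = 3 ^ j * (r.num * x.den) := by
        rw [a1, a2]; nth_rewrite 1 [e]; ring
      exact_mod_cast this
    have e3 : 3 ^ j ∣ x.num.natAbs * r.den := by
      have := congrArg Int.natAbs e2
      simp only [Int.natAbs_mul, Int.natAbs_pow, Int.natAbs_natCast] at this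
      exact ⟨_, this⟩
    exact (Nat.Coprime.pow_left j
      ((Nat.Prime.coprime_iff_not_dvd Nat.prime_three).2 hr)).dvd_of_dvd_mul_right e3
  have h2 : x.num.natAbs = 0 := by
    by_contra h0
    exact absurd (Nat.le_of_dvd (Nat.pos_of_ne_zero h0) (h1 x.num.natAbs))
      (not_le.2 (Nat.lt_pow_self (by norm_num)))
  exact Rat.num_eq_zero.1 (Int.natAbs_eq_zero.1 h2)

lemma inv_mem_R3 (n : ℤ) (h : ¬ (3 : ℤ) ∣ n) : (n : ℚ)⁻¹ ∈ R3 := by
  intro h3
  apply h
  have := Rat.den_dvd 1 n
  rw [Rat.divInt_eq_div, Int.cast_one, one_div] at this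
  exact (Int.natCast_dvd_natCast.2 h3).trans this

abbrev M3 := Matrix (Fin 3) (Fin 3) ℚ
abbrev G3 := GL (Fin 3) ℚ

/-- matrices with entries in `R3` -/
abbrev S3 : Subring M3 := R3.matrix

lemma pow3_mem (j : ℕ) : (3 : M3) ^ j ∈ S3 := pow_mem (by exact_mod_cast natCast_mem S3 3) j

lemma pow3_comm (j : ℕ) (X : M3) : X * 3 ^ j = 3 ^ j * X :=
  (Commute.pow_right (by exact_mod_cast (Nat.cast_commute 3 X).symm) j)

lemma pow3_smul (j : ℕ) (X : M3) : (3 : M3) ^ j * X = (3 : ℚ) ^ j • X := by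
  rw [Algebra.smul_def, map_pow, map_ofNat]

/-- congruence subgroups -/
def Gam (j : ℕ) : Subgroup G3 where
  carrier := {g | g⁻¹.val ∈ S3 ∧ ∃ X ∈ S3, g.val = 1 + 3 ^ j * X}
  one_mem' := ⟨one_mem _, 0, zero_mem _, by simp⟩
  mul_mem' := by
    rintro g h ⟨g1, X, hX, g2⟩ ⟨h1, Y, hY, h2⟩
    refine ⟨by rw [_root_.mul_inv_rev, Units.val_mul]; exact mul_mem h1 g1,
      X + Y + X * (3 ^ j * Y), add_mem (add_mem hX hY) (mul_mem hX (mul_mem (pow3_mem j) hY)), ?_⟩
    rw [Units.val_mul, g2, h2]; noncomm_ring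
  inv_mem' := by
    rintro g ⟨g1, X, hX, g2⟩
    refine ⟨?_, -(X * g⁻¹.val), neg_mem (mul_mem hX g1), ?_⟩
    · rw [inv_inv, g2]; exact add_mem (one_mem _) (mul_mem (pow3_mem j) hX)
    · have := g.mul_inv
      rw [g2, add_mul, one_mul] at this
      rw [mul_neg, ← mul_assoc, ← this]; abel

lemma Gam_comm {j : ℕ} {g h : G3} (hg : g ∈ Gam j) (hh : h ∈ Gam 1) : ⁅g, h⁆ ∈ Gam (j + 1) := by
  have hg' := (Gam j).inv_mem hg
  have hh' := (Gam 1).inv_mem hh
  obtain ⟨g1, X, hX, g2⟩ := hg
  obtain ⟨h1, Y, hY, h2⟩ := hh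
  have g0 : g.val ∈ S3 := by simpa using hg'.1
  have h0 : h.val ∈ S3 := by simpa using hh'.1
  refine ⟨?_, (X * Y - Y * X) * (g⁻¹.val * h⁻¹.val),
    mul_mem (sub_mem (mul_mem hX hY) (mul_mem hY hX)) (mul_mem g1 h1), ?_⟩
  · rw [commutatorElement_inv, commutatorElement_def]
    exact mul_mem (mul_mem (mul_mem h0 g0) h1) g1
  · have e1 : h.val * g.val * (g⁻¹.val * h⁻¹.val) = 1 := by
      rw [mul_assoc, ← mul_assoc g.val, Units.mul_inv, one_mul, Units.mul_inv]
    have e2 : g.val * h.val - h.val * g.val = 3 ^ (j + 1) * (X * Y - Y * X) := by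
      have a1 : 3 ^ j * X * (3 ^ 1 * Y) = 3 ^ (j + 1) * (X * Y) := by
        rw [mul_assoc, ← mul_assoc X, pow3_comm, pow_add]; simp only [mul_assoc]
      have a2 : 3 ^ 1 * Y * (3 ^ j * X) = 3 ^ (j + 1) * (Y * X) := by
        rw [mul_assoc, ← mul_assoc Y, pow3_comm, add_comm, pow_add]; simp only [mul_assoc]
      rw [g2, h2, mul_sub, ← a1, ← a2]; noncomm_ring
    rw [← mul_assoc, ← e2, sub_mul, e1, commutatorElement_def]
    simp [mul_assoc]

lemma lcs_Gam {G : Type*} [Group G] (θ : G →* G3) (hθ : ∀ g, θ g ∈ Gam 1) (j : ℕ) :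
    lcs G j ≤ (Gam (j + 1)).comap θ := by
  induction j with
  | zero => exact fun g _ => hθ g
  | succ j ih =>
    rw [lcs, Subgroup.lowerCentralSeries_succ, Subgroup.commutator_le]
    intro g hg h _
    rw [Subgroup.mem_comap, map_commutatorElement]
    exact Gam_comm (ih hg) (hθ h)

lemma Gam_sep {g : G3} (h : ∀ j, g ∈ Gam (j + 1)) : g = 1 := by
  apply Units.ext
  rw [← sub_eq_zero]
  ext a b
  apply R3_sep
  intro j
  obtain ⟨-, X, hX, e⟩ := h j
  refine ⟨3 * X a b, mul_mem (by exact_mod_cast natCast_mem R3 3) (hX a b), ?_⟩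
  rw [e, Units.val_one, add_sub_cancel_left, pow3_smul, Matrix.smul_apply, smul_eq_mul]; ring

lemma mem_Gam1 {g : G3} (h1 : g⁻¹.val ∈ S3) (X : M3) (hX : X ∈ S3)
    (e : g.val = 1 + (3 : ℚ) • X) : g ∈ Gam 1 :=
  ⟨h1, X, hX, by rw [e, pow3_smul, pow_one]⟩

lemma single_mem (i j : Fin 3) : (single i j 1 : M3) ∈ S3 := by
  intro a b
  simp only [single, of_apply]
  split_ifs
  exacts [one_mem R3, zero_mem R3]

lemma single_sq {i j : Fin 3} (h : i ≠ j) : (single i j 1 : M3) * single i j 1 = 0 :=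
  single_mul_single_of_ne _ _ _ _ h.symm _

/-- elementary matrices -/
noncomputable def tv (i j : Fin 3) (h : i ≠ j) : G3 :=
  ⟨1 + (3 : ℚ) • single i j 1, 1 - (3 : ℚ) • single i j 1, by
    rw [add_mul, mul_sub, mul_sub, smul_mul_smul_comm, single_sq h]; simp, by
    rw [sub_mul, mul_add, mul_add, smul_mul_smul_comm, single_sq h]; simp⟩

lemma tv_mem (i j : Fin 3) (h : i ≠ j) : tv i j h ∈ Gam 1 := by
  refine mem_Gam1 ?_ _ (single_mem i j) rfl
  change 1 - (3 : ℚ) • single i j 1 ∈ S3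
  rw [← pow_one (3 : ℚ), ← pow3_smul]
  exact sub_mem (one_mem _) (mul_mem (pow3_mem 1) (single_mem i j))

lemma eq_one_of_scalar {g : G3} (hd : GeneralLinearGroup.det g = 1)
    (h : g.val ∈ Set.range (scalar (Fin 3))) : g = 1 := by
  obtain ⟨c, hc⟩ := h
  have h1 : det g.val = 1 := by simpa using congrArg Units.val hd
  rw [← hc, scalar_apply, det_diagonal, Finset.prod_const, Finset.card_univ,
    Fintype.card_fin] at h1
  have h2 : c = 1 := (Odd.pow_inj (by decide : Odd 3)).1 (by rw [h1, one_pow])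
  apply Units.ext
  rw [← hc, h2, map_one, Units.val_one]

lemma third : ∀ i j : Fin 3, i ≠ j → ∃ r, r ≠ i ∧ r ≠ j ∧ ∀ k, k = i ∨ k = j ∨ k = r := by
  decide

lemma exists_noncomm (Δ : Subgroup G3) (hΔ : ∀ i j h, tv i j h ∈ Δ) {g h : G3} (hg : g ≠ 1)
    (hh : h ≠ 1) (dg : GeneralLinearGroup.det g = 1) (dh : GeneralLinearGroup.det h = 1) :
    ∃ w ∈ Δ, ⁅g, w * h * w⁻¹⁆ ≠ 1 := by
  by_contra hcon
  simp only [not_exists, not_and, not_not] at hcon
  let V : Submodule ℚ M3 :=
    { carrier := {X | ∀ w ∈ Δ, Commute g.val (w.val * X * w⁻¹.val)}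
      add_mem' := fun {X Y} hX hY w hw => by
        rw [mul_add, add_mul]; exact (hX w hw).add_right (hY w hw)
      zero_mem' := fun w _ => by simp
      smul_mem' := fun c X hX w hw => by
        rw [mul_smul_comm, smul_mul_assoc]; exact (hX w hw).smul_right c }
  have hV : h.val ∈ V := fun w hw => by
    have := congrArg Units.val (commutatorElement_eq_one_iff_mul_comm.1 (hcon w hw))
    simpa [Commute, SemiconjBy] using this
  have hc : ∀ X ∈ V, ∀ w ∈ Δ, w.val * X * w⁻¹.val ∈ V := fun X hX w hw v hv => by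
    have := hX (v * w) (mul_mem hv hw)
    rw [_root_.mul_inv_rev, Units.val_mul, Units.val_mul] at this
    simpa only [mul_assoc] using this
  have hB : ∀ X ∈ V, ∀ i j : Fin 3, i ≠ j → single i j 1 * X - X * single i j 1 ∈ V ∧
      single i j 1 * X * single i j 1 ∈ V := by
    intro X hX i j hij
    have h1 := hc X hX _ (hΔ i j hij)
    have h2 := hc X hX _ (inv_mem (hΔ i j hij))
    rw [inv_inv] at h2
    change (1 + (3 : ℚ) • single i j 1) * X * (1 - (3 : ℚ) • single i j 1) ∈ V at h1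
    change (1 - (3 : ℚ) • single i j 1) * X * (1 + (3 : ℚ) • single i j 1) ∈ V at h2
    generalize (single i j 1 : M3) = E at h1 h2 ⊢
    constructor
    · have e : E * X - X * E = (1 / 6 : ℚ) • ((1 + (3 : ℚ) • E) * X * (1 - (3 : ℚ) • E)
          - (1 - (3 : ℚ) • E) * X * (1 + (3 : ℚ) • E)) := by
        simp only [add_mul, sub_mul, mul_add, mul_sub, smul_mul_assoc, mul_smul_comm, one_mul,
          mul_one]
        module
      rw [e]; exact V.smul_mem _ (sub_mem h1 h2)
    · have e : E * X * E = (1 / 18 : ℚ) • ((X + X) - ((1 + (3 : ℚ) • E) * X * (1 - (3 : ℚ) • E)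
          + (1 - (3 : ℚ) • E) * X * (1 + (3 : ℚ) • E))) := by
        simp only [add_mul, sub_mul, mul_add, mul_sub, smul_mul_assoc, mul_smul_comm, one_mul,
          mul_one]
        module
      rw [e]; exact V.smul_mem _ (sub_mem (add_mem hX hX) (add_mem h1 h2))
  have R1 : ∀ k l i : Fin 3, single k l 1 ∈ V → i ≠ k → i ≠ l → single i l 1 ∈ V := by
    intro k l i hk h1 h2
    have := (hB _ hk i k h1).1
    rwa [single_mul_single_same, single_mul_single_of_ne _ _ _ _ h2.symm, sub_zero,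
      mul_one] at this
  have R2 : ∀ k l j : Fin 3, single k l 1 ∈ V → j ≠ l → j ≠ k → single k j 1 ∈ V := by
    intro k l j hk h1 h2
    have := neg_mem (hB _ hk l j h1.symm).1
    rwa [single_mul_single_same, single_mul_single_of_ne _ _ _ _ h2, zero_sub, neg_neg,
      mul_one] at this
  have start : ∃ i j : Fin 3, i ≠ j ∧ single i j 1 ∈ V := by
    by_cases hoff : ∃ i j : Fin 3, i ≠ j ∧ h.val j i ≠ 0
    · obtain ⟨i, j, hij, h0⟩ := hoff
      have := V.smul_mem (h.val j i)⁻¹ (hB _ hV i j hij).2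
      rw [single_mul_mul_single, smul_single, one_mul, mul_one, smul_eq_mul,
        inv_mul_cancel₀ h0] at this
      exact ⟨i, j, hij, this⟩
    · simp only [not_exists, not_and, not_not] at hoff
      have hd : h.val = diagonal fun i => h.val i i := by
        ext a b
        by_cases hab : a = b
        · rw [hab, diagonal_apply_eq]
        · rw [diagonal_apply_ne _ hab, hoff b a (Ne.symm hab)]
      have key : ∀ i j : Fin 3, single i j 1 * h.val - h.val * single i j 1
          = (h.val j j - h.val i i) • single i j 1 := by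
        intro i j
        generalize (fun i => h.val i i) = d at hd
        rw [hd]
        ext a b
        simp only [Matrix.sub_apply, mul_diagonal, diagonal_mul, Matrix.smul_apply, single,
          of_apply, diagonal_apply_eq, smul_eq_mul]
        split_ifs with hab
        · rw [hab.1, hab.2]; ring
        · ring
      by_contra hno
      simp only [not_exists, not_and] at hno
      apply hh
      apply eq_one_of_scalar dh
      apply mem_range_scalar_of_commute_single
      intro i j hij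
      by_contra hne
      apply hno i j hij
      have h0 : h.val j j - h.val i i ≠ 0 := fun h0 => hne (by
        have := key i j
        rw [h0, zero_smul, sub_eq_zero] at this
        exact this)
      have := V.smul_mem (h.val j j - h.val i i)⁻¹ (hB _ hV i j hij).1
      rwa [key, smul_smul, inv_mul_cancel₀ h0, one_smul] at this
  obtain ⟨i, j, hij, h1⟩ := start
  obtain ⟨r, hri, hrj, hall⟩ := third i j hij
  have h2 := R1 i j r h1 hri hrj
  have h3 := R2 i j r h1 hrj hri
  have h4 := R2 r j i h2 hij hri.symm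
  have h5 := R1 i r j h3 hij.symm hrj.symm
  have h6 := R2 j r i h5 hri.symm hij
  apply hg
  apply eq_one_of_scalar dg
  apply mem_range_scalar_of_commute_single
  intro k l hkl
  have : single k l 1 ∈ V := by
    rcases hall k with rfl | rfl | rfl <;> rcases hall l with rfl | rfl | rfl <;>
      first | assumption | exact (hkl rfl).elim
  simpa using (this 1 (one_mem _)).symm

end Pool.Agent.MP_26f8ef_al

end

-- part MP_26f8ef_al.GL2
section

/-! Two-dimensional matrix lemmas. -/

namespace Pool.Agent.MP_26f8ef_al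

open Matrix
open scoped commutatorElement

variable {K : Type*} [Field K]


/-- additive commutator -/
def sk (u v : (Matrix (Fin 2) (Fin 2) K)) : (Matrix (Fin 2) (Fin 2) K) := u * v - v * u

lemma sk_left (u v : (Matrix (Fin 2) (Fin 2) K)) : sk u v * u = adjugate u * sk u v := by
  ext i j
  fin_cases i <;> fin_cases j <;>
    simp [sk, adjugate_fin_two, mul_apply, Fin.sum_univ_two] <;> ring

lemma sk_right (u v : (Matrix (Fin 2) (Fin 2) K)) : sk u v * v = adjugate v * sk u v := by
  ext i j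
  fin_cases i <;> fin_cases j <;>
    simp [sk, adjugate_fin_two, mul_apply, Fin.sum_univ_two] <;> ring

lemma sk_sq (u v : (Matrix (Fin 2) (Fin 2) K)) : sk u v * sk u v = -(det (sk u v)) • (1 : (Matrix (Fin 2) (Fin 2) K)) := by
  ext i j
  fin_cases i <;> fin_cases j <;>
    simp [sk, det_fin_two, mul_apply, Fin.sum_univ_two] <;> ring

/-- the adjugate as an invertible matrix -/
noncomputable def J (x : (GL (Fin 2) K)) : (GL (Fin 2) K) :=
  ⟨adjugate x.val, adjugate x⁻¹.val, by
    rw [← adjugate_mul_distrib, Units.inv_mul, adjugate_one], by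
    rw [← adjugate_mul_distrib, Units.mul_inv, adjugate_one]⟩

lemma J_val (x : (GL (Fin 2) K)) : (J x).val = adjugate x.val := rfl

lemma J_mul (x y : (GL (Fin 2) K)) : J (x * y) = J y * J x := by
  ext1; simp [J_val, adjugate_mul_distrib]

lemma J_inv (x : (GL (Fin 2) K)) : J x⁻¹ = (J x)⁻¹ := by
  ext1; rfl

lemma J_fw (g y : (GL (Fin 2) K)) : J (fw g y) = fb (J g) (J y) := by
  simp only [fw, fb, J_mul, J_inv, mul_assoc]

lemma adj_adj (u : (Matrix (Fin 2) (Fin 2) K)) : adjugate (adjugate u) = u := by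
  ext i j
  fin_cases i <;> fin_cases j <;> simp [adjugate_fin_two]

lemma sk_adj (u v : (Matrix (Fin 2) (Fin 2) K)) : sk u v * adjugate u = u * sk u v := by
  ext i j
  fin_cases i <;> fin_cases j <;>
    simp [sk, adjugate_fin_two, mul_apply, Fin.sum_univ_two] <;> ring

/-- the word which vanishes on reducible pairs -/
def W {Q : Type*} [Group Q] (u v : Q) : Q := ⁅⁅u, v⁆, u * ⁅u, v⁆ * u⁻¹⁆

lemma map_W {Q R F : Type*} [Group Q] [Group R] [FunLike F Q R] [MonoidHomClass F Q R] (φ : F)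
    (u v : Q) : φ (W u v) = W (φ u) (φ v) := by simp [W, commutatorElement_def]

lemma rel_inv {s : (Matrix (Fin 2) (Fin 2) K)} {x x' : (GL (Fin 2) K)} (h : s * x.val = x'.val * s) :
    s * x⁻¹.val = x'⁻¹.val * s := by
  calc s * x⁻¹.val = x'⁻¹.val * (x'.val * s) * x⁻¹.val := by
        rw [← mul_assoc, Units.inv_mul, one_mul]
    _ = x'⁻¹.val * s := by rw [← h, mul_assoc, mul_assoc, Units.mul_inv, mul_one]

lemma W_eq_one (u v : (GL (Fin 2) K)) (h : det (sk u.val v.val) = 0) : W u v = 1 := by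
  set s := sk u.val v.val with hs
  have h0 : s * s = 0 := by rw [hs, sk_sq, ← hs, h]; simp
  have hu : s * u.val = (J u).val * s := sk_left _ _
  have hv : s * v.val = (J v).val * s := sk_right _ _
  have hu' := rel_inv hu
  have hv' := rel_inv hv
  have hj : s * (J u).val = u.val * s := sk_adj _ _
  have hk : (⁅u, v⁆ : (GL (Fin 2) K)).val = 1 + s * (u⁻¹.val * v⁻¹.val) := by
    rw [hs, sk, sub_mul, commutatorElement_def]
    have : v.val * u.val * (u⁻¹.val * v⁻¹.val) = 1 := by
      rw [mul_assoc, ← mul_assoc u.val, Units.mul_inv, one_mul, Units.mul_inv]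
    rw [this]; simp [mul_assoc]
  have hk' : (u * ⁅u, v⁆ * u⁻¹ : (GL (Fin 2) K)).val
      = 1 + s * ((J u).val * (u⁻¹.val * v⁻¹.val) * u⁻¹.val) := by
    rw [Units.val_mul, Units.val_mul, hk, mul_add, add_mul, mul_one, Units.mul_inv,
      ← mul_assoc u.val, ← hj]
    simp only [mul_assoc]
  have e1 : s * (u⁻¹.val * v⁻¹.val) * s = 0 := by
    rw [← mul_assoc, hu', mul_assoc, mul_assoc, ← mul_assoc s, hv', mul_assoc, h0]; simp
  have e2 : s * ((J u).val * (u⁻¹.val * v⁻¹.val) * u⁻¹.val) * s = 0 := by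
    have : s * ((J u).val * (u⁻¹.val * v⁻¹.val) * u⁻¹.val)
        = u.val * (J u)⁻¹.val * (J v)⁻¹.val * (J u)⁻¹.val * s := by
      calc s * ((J u).val * (u⁻¹.val * v⁻¹.val) * u⁻¹.val)
          = (s * (J u).val) * u⁻¹.val * v⁻¹.val * u⁻¹.val := by simp only [mul_assoc]
        _ = u.val * (s * u⁻¹.val) * v⁻¹.val * u⁻¹.val := by rw [hj]; simp only [mul_assoc]
        _ = u.val * (J u)⁻¹.val * (s * v⁻¹.val) * u⁻¹.val := by rw [hu']; simp only [mul_assoc]
        _ = u.val * (J u)⁻¹.val * (J v)⁻¹.val * (s * u⁻¹.val) := by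
            rw [hv']; simp only [mul_assoc]
        _ = _ := by rw [hu']; simp only [mul_assoc]
    rw [this, mul_assoc, h0, mul_zero]
  rw [W, commutatorElement_eq_one_iff_mul_comm]
  ext1
  rw [Units.val_mul, Units.val_mul (u * ⁅u, v⁆ * u⁻¹), hk, hk']
  generalize u⁻¹.val * v⁻¹.val = X at e1 e2 ⊢
  generalize (J u).val * X * u⁻¹.val = Y at e2 ⊢
  have a1 : s * X * (s * Y) = 0 := by rw [← mul_assoc, e1, zero_mul]
  have a2 : s * Y * (s * X) = 0 := by rw [← mul_assoc, e2, zero_mul]
  rw [add_mul, add_mul, mul_add, mul_add, mul_add, mul_add, a1, a2]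
  simp only [one_mul, mul_one, add_zero]
  abel

lemma exists_conj (u v : (GL (Fin 2) K)) (h : W u v ≠ 1) :
    ∃ S : (GL (Fin 2) K), S * u * S⁻¹ = J u ∧ S * v * S⁻¹ = J v := by
  have hd : det (sk u.val v.val) ≠ 0 := fun h0 => h (W_eq_one u v h0)
  refine ⟨GeneralLinearGroup.mkOfDetNeZero _ hd, ?_, ?_⟩
  · rw [mul_inv_eq_iff_eq_mul]; ext1; exact sk_left _ _
  · rw [mul_inv_eq_iff_eq_mul]; ext1; exact sk_right _ _

/-- generator used at a step -/
def gg {Q : Type*} [Group Q] (a : Q) (i : Bool) : Q := cond i (a * a) a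

lemma map_gg {Q R F : Type*} [Group Q] [Group R] [FunLike F Q R] [MonoidHomClass F Q R] (φ : F)
    (a : Q) (i : Bool) : φ (gg a i) = gg (φ a) i := by cases i <;> simp [gg]

lemma step (a y : (GL (Fin 2) K)) (i : Bool) (h1 : W a y ≠ 1) (h2 : W a (fw (gg a i) y) ≠ 1) :
    ∃ z : (GL (Fin 2) K), z * a = a * z ∧ fb (gg a i) y = z * fw (gg a i) y * z⁻¹ := by
  obtain ⟨S, hSa, hSy⟩ := exists_conj a y h1
  obtain ⟨T, hTa, hTm⟩ := exists_conj a _ h2
  have hSg : S * gg a i * S⁻¹ = J (gg a i) := by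
    cases i
    · exact hSa
    · simp only [gg, cond_true, J_mul, ← hSa]; group
  refine ⟨S⁻¹ * T, ?_, ?_⟩
  · have : T * a * T⁻¹ = S * a * S⁻¹ := by rw [hSa, hTa]
    calc S⁻¹ * T * a = S⁻¹ * (T * a * T⁻¹) * T := by group
      _ = a * (S⁻¹ * T) := by rw [this]; group
  · have : S * fb (gg a i) y * S⁻¹ = T * fw (gg a i) y * T⁻¹ := by
      rw [hTm, J_fw, ← hSg, ← hSy]; unfold fb; group
    calc fb (gg a i) y = S⁻¹ * (S * fb (gg a i) y * S⁻¹) * S := by group
      _ = _ := by rw [this]; group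

lemma inv_of_tr {D x : (Matrix (Fin 2) (Fin 2) K)} (h0 : trace D = 0) (h1 : trace (D * x) = 0) :
    D * x = adjugate x * D := by
  simp only [trace_fin_two, mul_apply, Fin.sum_univ_two] at h0 h1
  ext i j
  fin_cases i <;> fin_cases j <;>
    simp [adjugate_fin_two, mul_apply, Fin.sum_univ_two]
  · linear_combination h1 - (x 1 1) * h0
  · linear_combination (x 0 1) * h0
  · linear_combination (x 1 0) * h0
  · linear_combination h1 - (x 0 0) * h0

lemma eq_zero_of_tr {D g c : (Matrix (Fin 2) (Fin 2) K)} (hd : det (sk g c) ≠ 0) (h0 : trace D = 0)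
    (h1 : trace (D * g) = 0) (h2 : trace (D * c) = 0) (h3 : trace (D * (g * c)) = 0) : D = 0 := by
  have e1 := inv_of_tr h0 h1
  have e2 := inv_of_tr h0 h2
  have e3 := inv_of_tr h0 h3
  have e4 : adjugate (sk g c) = adjugate (g * c) - adjugate (c * g) := by
    ext i j
    fin_cases i <;> fin_cases j <;> simp [sk, adjugate_fin_two] <;> ring
  have e5 : adjugate (sk g c) * D = 0 := by
    rw [e4, sub_mul, ← e3, adjugate_mul_distrib c g, mul_assoc, ← e2, ← mul_assoc, ← mul_assoc,
      ← e1, sub_self]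
  have e6 : det (sk g c) • D = 0 := by
    rw [← one_mul D, ← smul_mul_assoc, ← mul_adjugate, mul_assoc, e5, mul_zero]
  exact (smul_eq_zero.1 e6).resolve_left hd

lemma ch2 (y : (Matrix (Fin 2) (Fin 2) K)) : y * y = trace y • y - det y • (1 : (Matrix (Fin 2) (Fin 2) K)) := by
  ext i j
  fin_cases i <;> fin_cases j <;>
    simp [trace_fin_two, det_fin_two, mul_apply, Fin.sum_univ_two] <;> ring

lemma cubic_id (g y : (Matrix (Fin 2) (Fin 2) K)) : trace (g * (y * y * g * adjugate y)) =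
    -det g * trace y ^ 3 + trace g * trace (y * g) * trace y ^ 2
      + (3 * det g * det y - trace (y * g) ^ 2 - det y * trace g ^ 2) * trace y
      + det y * trace g * trace (y * g) := by
  simp [trace_fin_two, det_fin_two, adjugate_fin_two, mul_apply, Fin.sum_univ_two]
  ring

lemma sol_facts {g b y : (GL (Fin 2) K)} (h : fw g y = b) :
    y.val * y.val * g.val = b.val * g.val * y.val ∧ det y.val = det b.val ∧
      trace (y.val * g.val) = trace (b.val * g.val) := by
  have h1 : y * y * g = b * g * y := by rw [← h]; unfold fw; group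
  have h1' : y.val * y.val * g.val = b.val * g.val * y.val := by
    simpa using congrArg Units.val h1
  refine ⟨h1', ?_, ?_⟩
  · have h2 := congrArg det h1'
    simp only [det_mul] at h2
    have hy : det y.val ≠ 0 := y.det_ne_zero
    have hg : det g.val ≠ 0 := g.det_ne_zero
    have : (det y.val - det b.val) * (det y.val * det g.val) = 0 := by linear_combination h2
    exact sub_eq_zero.1 ((mul_eq_zero.1 this).resolve_right (mul_ne_zero hy hg))
  · have h2 : b * g = y * (y * g) * y⁻¹ := by rw [← h]; unfold fw; group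
    have h3 : b.val * g.val = y.val * (y.val * g.val) * y⁻¹.val := by
      simpa using congrArg Units.val h2
    rw [h3, trace_mul_comm _ y⁻¹.val, ← mul_assoc, Units.inv_mul, one_mul]

lemma sol_unique {g b y y' : (GL (Fin 2) K)} (hd : det (sk g.val b.val) ≠ 0) (h : fw g y = b)
    (h' : fw g y' = b) (ht : trace y.val = trace y'.val) : y = y' := by
  obtain ⟨a1, a2, a3⟩ := sol_facts h
  obtain ⟨b1, b2, b3⟩ := sol_facts h'
  set c := b.val * g.val with hc
  have hd' : det (sk g.val c) ≠ 0 := by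
    have : sk g.val c = sk g.val b.val * g.val := by
      simp only [sk, hc, sub_mul, mul_assoc]
    rw [this, det_mul]; exact mul_ne_zero hd g.det_ne_zero
  rw [ch2] at a1 b1
  set D := y.val - y'.val with hD
  have h0 : trace D = 0 := by rw [hD, trace_sub, ht, sub_self]
  have h1 : trace (D * g.val) = 0 := by rw [hD, sub_mul, trace_sub, a3, b3, sub_self]
  have e : c * D = trace y.val • (D * g.val) := by
    rw [hD, mul_sub, ← a1, ← b1, a2, b2, ← ht]
    simp only [sub_mul, smul_mul_assoc, smul_sub]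
    abel
  have h2 : trace (D * c) = 0 := by rw [trace_mul_comm, e, trace_smul, h1, smul_zero]
  have h3 : trace (D * (g.val * c)) = 0 := by
    rw [trace_mul_comm, mul_assoc, e, mul_smul_comm, trace_smul, trace_mul_comm, mul_assoc, ch2,
      mul_sub, mul_smul_comm, mul_smul_comm, trace_sub, trace_smul, trace_smul, h1, mul_one, h0]
    simp
  have := eq_zero_of_tr hd' h0 h1 h2 h3
  ext1
  exact sub_eq_zero.1 this

open Polynomial in
lemma sol_finite (g b : (GL (Fin 2) K)) (hW : W g b ≠ 1) :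
    ∃ T : Finset (GL (Fin 2) K), T.card ≤ 3 ∧ ∀ y, fw g y = b → y ∈ T := by
  classical
  have hd : det (sk g.val b.val) ≠ 0 := fun h0 => hW (W_eq_one g b h0)
  set c := b.val * g.val with hc
  let P : Cubic K := ⟨-det g.val, trace g.val * trace c,
    3 * det g.val * det b.val - trace c ^ 2 - det b.val * trace g.val ^ 2,
    det b.val * trace g.val * trace c - det b.val * trace (g.val * c)⟩
  have hP : P.toPoly ≠ 0 := Cubic.ne_zero_of_a_ne_zero (neg_ne_zero.2 g.det_ne_zero)
  have hroot : ∀ y, fw g y = b → trace y.val ∈ P.roots.toFinset := by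
    intro y hy
    obtain ⟨a1, a2, a3⟩ := sol_facts hy
    rw [Multiset.mem_toFinset, Cubic.mem_roots_iff hP]
    have h1 := cubic_id g.val y.val
    rw [a1, mul_assoc c, mul_adjugate, mul_smul_comm, mul_one, mul_smul_comm, trace_smul, a3,
      a2, smul_eq_mul] at h1
    simp only [P]
    linear_combination -h1
  let S : Set (GL (Fin 2) K) := {y | fw g y = b}
  have hinj : Set.InjOn (fun y : (GL (Fin 2) K) => trace y.val) S := fun y hy y' hy' ht =>
    sol_unique hd hy hy' ht
  have hfin : S.Finite :=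
    Set.Finite.of_injOn (t := (P.roots.toFinset : Set K)) (fun y hy => hroot y hy) hinj
      (Finset.finite_toSet _)
  refine ⟨hfin.toFinset, ?_, fun y hy => hfin.mem_toFinset.2 hy⟩
  refine le_trans (Finset.card_le_card_of_injOn (fun y : (GL (Fin 2) K) => trace y.val) ?_ ?_)
    (Cubic.card_roots_le (P := P))
  · intro y hy
    exact hroot y (hfin.mem_toFinset.1 hy)
  · intro y hy y' hy' ht
    exact hinj (hfin.mem_toFinset.1 hy) (hfin.mem_toFinset.1 hy') ht

lemma comm_of_comm {a z w : (Matrix (Fin 2) (Fin 2) K)} (b : (Matrix (Fin 2) (Fin 2) K)) (hd : det (sk a b) ≠ 0) (hz : z * a = a * z)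
    (hw : w * a = a * w) : z * w = w * z := by
  have z1 := congrFun (congrFun hz 0) 0
  have z2 := congrFun (congrFun hz 0) 1
  have z3 := congrFun (congrFun hz 1) 0
  have w1 := congrFun (congrFun hw 0) 0
  have w2 := congrFun (congrFun hw 0) 1
  have w3 := congrFun (congrFun hw 1) 0
  simp only [mul_apply, Fin.sum_univ_two] at z1 z2 z3 w1 w2 w3
  have key : ∀ t : K, a 0 1 * t = 0 → a 1 0 * t = 0 → (a 0 0 - a 1 1) * t = 0 → t = 0 := by
    intro t h1 h2 h3
    by_contra ht
    have e1 := (mul_eq_zero.1 h1).resolve_right ht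
    have e2 := (mul_eq_zero.1 h2).resolve_right ht
    have e3 := sub_eq_zero.1 ((mul_eq_zero.1 h3).resolve_right ht)
    apply hd
    simp [sk, det_fin_two, mul_apply, Fin.sum_univ_two, e1, e2, e3]
    ring
  have k1 : z 0 1 * w 1 0 - w 0 1 * z 1 0 = 0 := by
    apply key
    · linear_combination (w 0 1) * z1 - (z 0 1) * w1
    · linear_combination (w 1 0) * z1 - (z 1 0) * w1
    · linear_combination -(z 0 0 - z 1 1) * w1 - (w 1 0) * z2 - (w 0 1) * z3
  have k2 : z 0 1 * (w 0 0 - w 1 1) - w 0 1 * (z 0 0 - z 1 1) = 0 := by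
    apply key
    · linear_combination (z 0 1) * w2 - (w 0 1) * z2
    · linear_combination (w 0 0 - w 1 1) * z1 + (z 1 0) * w2 + (w 0 1) * z3
    · linear_combination -(w 0 0 - w 1 1) * z2 + (z 0 0 - z 1 1) * w2
  have k3 : z 1 0 * (w 0 0 - w 1 1) - w 1 0 * (z 0 0 - z 1 1) = 0 := by
    apply key
    · linear_combination -(z 0 1) * w3 - (w 0 0 - w 1 1) * z1 - (w 1 0) * z2
    · linear_combination -(z 1 0) * w3 + (w 1 0) * z3
    · linear_combination (w 0 0 - w 1 1) * z3 - (z 0 0 - z 1 1) * w3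
  ext i j
  fin_cases i <;> fin_cases j <;> simp [mul_apply, Fin.sum_univ_two]
  · linear_combination k1
  · linear_combination -k2
  · linear_combination k3
  · linear_combination -k1

end Pool.Agent.MP_26f8ef_al

end

-- part MP_26f8ef_al.Heis
section

/-! The explicit solutions in upper triangular `3 × 3` matrices. -/

namespace Pool.Agent.MP_26f8ef_al

open Matrix
open scoped commutatorElement

/-- unitriangular matrices -/
def U (x y z : ℚ) : G3 :=
  ⟨!![1, x, z; 0, 1, y; 0, 0, 1], !![1, -x, x * y - z; 0, 1, -y; 0, 0, 1], by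
    ext i j; fin_cases i <;> fin_cases j <;> simp [mul_apply, Fin.sum_univ_three]
    ring, by
    ext i j; fin_cases i <;> fin_cases j <;> simp [mul_apply, Fin.sum_univ_three]
    ring⟩

lemma U_val (x y z : ℚ) : (U x y z).val = !![1, x, z; 0, 1, y; 0, 0, 1] := rfl

lemma U_mul (x y z x' y' z' : ℚ) :
    U x y z * U x' y' z' = U (x + x') (y + y') (z + z' + x * y') := by
  apply Units.ext
  ext i j
  fin_cases i <;> fin_cases j <;> simp [U_val, mul_apply, Fin.sum_univ_three] <;> ring

lemma U_inv (x y z : ℚ) : (U x y z)⁻¹ = U (-x) (-y) (x * y - z) := Units.ext rfl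

lemma U_inj {x y z x' y' z' : ℚ} (h : U x y z = U x' y' z') : x = x' ∧ y = y' ∧ z = z' := by
  have h1 := congrArg Units.val h
  have a := congrFun (congrFun h1 0) 1
  have b := congrFun (congrFun h1 1) 2
  have c := congrFun (congrFun h1 0) 2
  simp only [U_val] at a b c
  exact ⟨by simpa using a, by simpa using b, by simpa using c⟩

lemma U_det (x y z : ℚ) : GeneralLinearGroup.det (U x y z) = 1 := by
  apply Units.ext
  simp [U_val, det_fin_three]

/-- the diagonal matrix -/
def A0 : G3 :=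
  ⟨!![-8, 0, 0; 0, -2, 0; 0, 0, 1], !![-1 / 8, 0, 0; 0, -1 / 2, 0; 0, 0, 1], by
    ext i j; fin_cases i <;> fin_cases j <;> simp [mul_apply, Fin.sum_univ_three] <;> norm_num, by
    ext i j; fin_cases i <;> fin_cases j <;> simp [mul_apply, Fin.sum_univ_three] <;> norm_num⟩

lemma A0_val : A0.val = !![-8, 0, 0; 0, -2, 0; 0, 0, 1] := rfl

lemma A0_U (x y z : ℚ) : A0 * U x y z = U (4 * x) (-2 * y) (-8 * z) * A0 := by
  apply Units.ext
  ext i j
  fin_cases i <;> fin_cases j <;> simp [U_val, A0_val, mul_apply, Fin.sum_univ_three] <;> ring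

/-- first root -/
def pp (i : Bool) : ℚ := cond i 16 4
/-- second root -/
def qq (i : Bool) : ℚ := cond i 4 (-2)

lemma gg_U (i : Bool) (x y z : ℚ) :
    gg A0 i * U x y z = U (pp i * x) (qq i * y) (pp i * qq i * z) * gg A0 i := by
  cases i
  · simp only [gg, pp, qq, cond_false, A0_U]; norm_num
  · simp only [gg, pp, qq, cond_true]
    rw [mul_assoc, A0_U, ← mul_assoc, A0_U, mul_assoc]
    congr 2 <;> ring

lemma conj_U (i : Bool) (x y z : ℚ) :
    gg A0 i * U x y z * (gg A0 i)⁻¹ = U (pp i * x) (qq i * y) (pp i * qq i * z) := by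
  rw [gg_U, mul_inv_cancel_right]

lemma conj_U' (i : Bool) (x y z : ℚ) :
    (gg A0 i)⁻¹ * U x y z * gg A0 i = U (x / pp i) (y / qq i) (z / (pp i * qq i)) := by
  rw [mul_assoc, inv_mul_eq_iff_eq_mul, gg_U]
  cases i <;> simp only [pp, qq, cond_true, cond_false] <;> congr 2 <;> ring

lemma fw_U (i : Bool) (x y z : ℚ) : fw (gg A0 i) (U x y z) =
    U ((2 - pp i) * x) ((2 - qq i) * y)
      ((2 - pp i * qq i) * z + x * y * (1 + pp i * qq i - 2 * qq i)) := by
  have : fw (gg A0 i) (U x y z)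
      = U x y z * U x y z * (gg A0 i * (U x y z)⁻¹ * (gg A0 i)⁻¹) := by
    simp only [fw, mul_assoc]
  rw [this, U_inv, conj_U, U_mul, U_mul]
  congr 1 <;> ring

lemma fb_U (i : Bool) (x y z : ℚ) : fb (gg A0 i) (U x y z) =
    U ((2 - (pp i)⁻¹) * x) ((2 - (qq i)⁻¹) * y)
      ((2 - (pp i * qq i)⁻¹) * z + x * y * (1 + (pp i * qq i)⁻¹ - 2 * (pp i)⁻¹)) := by
  rw [fb, U_inv, conj_U', U_mul, U_mul]
  congr 1 <;> ring

lemma W_U (i : Bool) {x y : ℚ} (z : ℚ) (hx : x ≠ 0) (hy : y ≠ 0) :
    W (gg A0 i) (U x y z) ≠ 1 := by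
  intro h
  rw [W, commutatorElement_eq_one_iff_mul_comm, commutatorElement_def, conj_U, U_inv, U_mul,
    conj_U, U_mul, U_mul] at h
  have h3 := (U_inj h).2.2
  have : x * y = 0 := by
    cases i <;> simp only [pp, qq, cond_true, cond_false] at h3
    · linear_combination h3 / 54
    · linear_combination -h3 / 540
  exact mul_ne_zero hx hy this

/-- divisible by three in `R3` -/
def D3 (x : ℚ) : Prop := ∃ r ∈ R3, x = 3 * r

lemma D3.mul_left {x c : ℚ} (hc : c ∈ R3) (h : D3 x) : D3 (c * x) := by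
  obtain ⟨r, hr, rfl⟩ := h
  exact ⟨c * r, mul_mem hc hr, by ring⟩

lemma D3.add {x y : ℚ} (h : D3 x) (h' : D3 y) : D3 (x + y) := by
  obtain ⟨r, hr, rfl⟩ := h
  obtain ⟨s, hs, rfl⟩ := h'
  exact ⟨r + s, add_mem hr hs, by ring⟩

lemma D3.mem {x : ℚ} (h : D3 x) : x ∈ R3 := by
  obtain ⟨r, hr, rfl⟩ := h
  exact mul_mem (by exact_mod_cast natCast_mem R3 3) hr

lemma U_mem_S3 {x y z : ℚ} (hx : x ∈ R3) (hy : y ∈ R3) (hz : z ∈ R3) : (U x y z).val ∈ S3 := by
  intro i j
  fin_cases i <;> fin_cases j <;> simp only [U_val] <;>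
    first | exact one_mem R3 | exact zero_mem R3 | exact hx | exact hy | exact hz

lemma U_mem {x y z : ℚ} (hx : D3 x) (hy : D3 y) (hz : D3 z) : U x y z ∈ Gam 1 := by
  have h1 : (U x y z)⁻¹.val ∈ S3 := by
    rw [U_inv]
    exact U_mem_S3 (neg_mem hx.mem) (neg_mem hy.mem) (sub_mem (mul_mem hx.mem hy.mem) hz.mem)
  obtain ⟨r, hr, rfl⟩ := hx
  obtain ⟨s, hs, rfl⟩ := hy
  obtain ⟨t, ht, rfl⟩ := hz
  refine mem_Gam1 h1 ((U r s t).val - 1) (sub_mem (U_mem_S3 hr hs ht) (one_mem _)) ?_
  ext i j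
  fin_cases i <;> fin_cases j <;> simp [U_val]

lemma frac_mem (a b : ℤ) (h : ¬ (3 : ℤ) ∣ b) {c : ℚ} (e : c = a * (b : ℚ)⁻¹) : c ∈ R3 :=
  e ▸ mul_mem (intCast_mem R3 a) (inv_mem_R3 b h)

lemma A0_mem : A0 ∈ Gam 1 := by
  refine mem_Gam1 ?_ !![-3, 0, 0; 0, -1, 0; 0, 0, 0] ?_ ?_
  · intro i j
    change (!![-1 / 8, 0, 0; 0, -1 / 2, 0; 0, 0, 1] : M3) i j ∈ R3
    have h1 : (-1 / 8 : ℚ) ∈ R3 := frac_mem (-1) 8 (by norm_num) (by norm_num)
    have h2 : (-1 / 2 : ℚ) ∈ R3 := frac_mem (-1) 2 (by norm_num) (by norm_num)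
    fin_cases i <;> fin_cases j <;>
      first | exact h1 | exact h2 | exact one_mem R3 | exact zero_mem R3
  · intro i j
    have h1 : (-3 : ℚ) ∈ R3 := frac_mem (-3) 1 (by norm_num) (by norm_num)
    have h2 : (-1 : ℚ) ∈ R3 := frac_mem (-1) 1 (by norm_num) (by norm_num)
    fin_cases i <;> fin_cases j <;> first | exact h1 | exact h2 | exact zero_mem R3
  · ext i j
    fin_cases i <;> fin_cases j <;> simp [A0_val] <;> norm_num

/-- contraction ratios -/
def mu (i : Bool) : ℚ := cond i (-3556 / 13454) (-136 / 350)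
/-- translations -/
def cc (i : Bool) : ℚ := cond i (10773 / 13454) (81 / 350)

/-- the affine coordinate of a word -/
def xi : List Bool → ℚ
  | [] => 0
  | i :: u => mu i * xi u + cc i

lemma xi_bound (u : List Bool) : -1 / 5 ≤ xi u ∧ xi u ≤ 1 := by
  induction u with
  | nil => simp only [xi]; norm_num
  | cons i u ih =>
    cases i <;> simp only [xi, mu, cc, cond_true, cond_false] <;> constructor <;>
      linarith [ih.1, ih.2]

lemma xi_inj (u : List Bool) : ∀ u' : List Bool, u.length = u'.length → xi u = xi u' → u = u' := by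
  induction u with
  | nil => intro u' h _; exact (List.length_eq_zero_iff.1 h.symm).symm
  | cons i u ih =>
    intro u' h e
    obtain ⟨i', u', rfl⟩ := List.exists_cons_of_length_eq_add_one h.symm
    have h1 := xi_bound u
    have h2 := xi_bound u'
    have hl : u.length = u'.length := by simpa using h
    cases i <;> cases i' <;> simp only [xi, mu, cc, cond_true, cond_false] at e
    · rw [ih u' hl (by linarith)]
    · linarith [h1.1, h2.2]
    · linarith [h1.2, h2.1]
    · rw [ih u' hl (by linarith)]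

/-- the invariant of the recursion -/
def Good (ξ : ℚ) (g : G3) : Prop :=
  ∃ x y : ℚ, x ≠ 0 ∧ y ≠ 0 ∧ D3 x ∧ D3 y ∧ D3 (ξ * x * y) ∧ g = U x y (ξ * x * y)

lemma good_step (i : Bool) (ξ : ℚ) (g : G3) : ∃ v : G3, Good ξ g →
    fw (gg A0 i) v = g ∧ (∃ η, Good η v) ∧ Good (mu i * ξ + cc i) (fb (gg A0 i) v) := by
  by_cases h : Good ξ g
  swap
  · exact ⟨1, fun h' => (h h').elim⟩
  obtain ⟨x, y, hx, hy, dx, dy, dz, rfl⟩ := h
  cases i
  · have ex : D3 (-1 / 2 * x) := dx.mul_left (frac_mem (-1) 2 (by norm_num) (by norm_num))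
    have ey : D3 (1 / 4 * y) := dy.mul_left (frac_mem 1 4 (by norm_num) (by norm_num))
    have exy : ∀ c ∈ R3, D3 (c * (x * y)) := fun c hc => (dy.mul_left dx.mem).mul_left hc
    refine ⟨U (-1 / 2 * x) (1 / 4 * y) ((-4 / 5 * ξ + 3 / 10) * (-1 / 2 * x) * (1 / 4 * y)),
      fun _ => ⟨?_, ⟨_, _, _, by positivity, by positivity, ex, ey, ?_, rfl⟩,
        ⟨-7 / 8 * x, 5 / 8 * y, by positivity, by positivity,
        dx.mul_left (frac_mem (-7) 8 (by norm_num) (by norm_num)),
        dy.mul_left (frac_mem 5 8 (by norm_num) (by norm_num)), ?_, ?_⟩⟩⟩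
    · rw [fw_U]; simp only [pp, qq, cond_false]; congr 1 <;> ring
    · have := (dz.mul_left (frac_mem 1 10 (by norm_num) rfl)).add
        (exy _ (frac_mem (-3) 80 (by norm_num) rfl))
      convert this using 1; push_cast; ring
    · have := (dz.mul_left (frac_mem 17 80 (by norm_num) rfl)).add
        (exy _ (frac_mem (-81) 640 (by norm_num) rfl))
      convert this using 1; simp only [mu, cc, cond_false]; push_cast; ring
    · rw [fb_U]; simp only [pp, qq, mu, cc, cond_false]; congr 1 <;> ring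
  · have ex : D3 (-1 / 14 * x) := dx.mul_left (frac_mem (-1) 14 (by norm_num) (by norm_num))
    have ey : D3 (-1 / 2 * y) := dy.mul_left (frac_mem (-1) 2 (by norm_num) (by norm_num))
    have exy : ∀ c ∈ R3, D3 (c * (x * y)) := fun c hc => (dy.mul_left dx.mem).mul_left hc
    refine ⟨U (-1 / 14 * x) (-1 / 2 * y)
        ((-14 / 31 * ξ + 57 / 62) * (-1 / 14 * x) * (-1 / 2 * y)),
      fun _ => ⟨?_, ⟨_, _, _, by positivity, by positivity, ex, ey, ?_, rfl⟩,
        ⟨-31 / 224 * x, -7 / 8 * y, by positivity, by positivity,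
        dx.mul_left (frac_mem (-31) 224 (by norm_num) (by norm_num)),
        dy.mul_left (frac_mem (-7) 8 (by norm_num) (by norm_num)), ?_, ?_⟩⟩⟩
    · rw [fw_U]; simp only [pp, qq, cond_true]; congr 1 <;> ring
    · have := (dz.mul_left (frac_mem (-1) 62 (by norm_num) rfl)).add
        (exy _ (frac_mem 57 1736 (by norm_num) rfl))
      convert this using 1; push_cast; ring
    · have := (dz.mul_left (frac_mem (-127) 3968 (by norm_num) rfl)).add
        (exy _ (frac_mem 10773 111104 (by norm_num) rfl))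
      convert this using 1; simp only [mu, cc, cond_true]; push_cast; ring
    · rw [fb_U]; simp only [pp, qq, mu, cc, cond_true]; congr 1 <;> ring

end Pool.Agent.MP_26f8ef_al

end

-- part MP_26f8ef_al.Core
section

/-! The pigeonhole argument in `GL₂(K)`. -/

namespace Pool.Agent.MP_26f8ef_al

open Matrix

variable {K : Type*} [Field K]


lemma W_conj {Q : Type*} [Group Q] (t u v : Q) :
    W (t * u * t⁻¹) (t * v * t⁻¹) = t * W u v * t⁻¹ := by
  simp only [W, commutatorElement_def]; group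

lemma fw_conj {Q : Type*} [Group Q] (t g y : Q) :
    fw (t * g * t⁻¹) (t * y * t⁻¹) = t * fw g y * t⁻¹ := by
  simp only [fw]; group

lemma fb_conj {Q : Type*} [Group Q] (t g y : Q) :
    fb (t * g * t⁻¹) (t * y * t⁻¹) = t * fb g y * t⁻¹ := by
  simp only [fb]; group

lemma gg_conj {Q : Type*} [Group Q] {t a : Q} (h : t * a * t⁻¹ = a) (i : Bool) :
    t * gg a i * t⁻¹ = gg a i := by
  cases i
  · exact h
  · calc t * gg a true * t⁻¹ = (t * a * t⁻¹) * (t * a * t⁻¹) := by simp only [gg, cond_true]; group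
      _ = _ := by rw [h]; rfl

lemma core (a b : (GL (Fin 2) K)) (y : Bool → List Bool → (GL (Fin 2) K)) (m : List Bool → (GL (Fin 2) K)) (h0 : m [] = b)
    (hf : ∀ i u, u.length < 30 → fw (gg a i) (y i u) = m u)
    (hm : ∀ i u, u.length < 30 → m (i :: u) = fb (gg a i) (y i u))
    (hW : ∀ i u, u.length < 30 → W a (y i u) ≠ 1) (hb : ∀ i, W (gg a i) b ≠ 1) :
    ∃ u u' : List Bool, u.length = 30 ∧ u'.length = 30 ∧ u ≠ u' ∧ m u = m u' := by
  classical
  have hb0 : W a b ≠ 1 := hb false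
  have hd : det (sk a.val b.val) ≠ 0 := fun h => hb0 (W_eq_one a b h)
  let C := Subgroup.centralizer ({a} : Set (GL (Fin 2) K))
  have hC : ∀ z : (GL (Fin 2) K), z ∈ C ↔ z * a = a * z := fun z => by
    simp only [C, Subgroup.mem_centralizer_singleton_iff]
  let _ : CommGroup C := { (inferInstance : Group C) with
    mul_comm := fun z w => by
      apply Subtype.ext
      apply Units.ext
      have hz := congrArg Units.val ((hC z).1 z.2)
      have hw := congrArg Units.val ((hC w).1 w.2)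
      exact comm_of_comm b.val hd hz hw }
  choose T hT hT' using fun i => sol_finite (gg a i) b (hb i)
  have hz : ∀ (i : Bool) (v : (GL (Fin 2) K)), ∃ z : C, W a v ≠ 1 → fw (gg a i) v = b →
      fb (gg a i) v = z.val * b * z.val⁻¹ := by
    intro i v
    by_cases h : W a v ≠ 1 ∧ fw (gg a i) v = b
    · obtain ⟨z, hz1, hz2⟩ := step a v i h.1 (h.2.symm ▸ hb0)
      exact ⟨⟨z, (hC z).2 hz1⟩, fun _ _ => by rw [hz2, h.2]⟩
    · exact ⟨1, fun h1 h2 => (h ⟨h1, h2⟩).elim⟩
  choose zf hzf using hz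
  let Z : Finset C := (T false).image (zf false) ∪ (T true).image (zf true)
  have hZ : Z.card ≤ 6 := by
    have h1 := Finset.card_union_le ((T false).image (zf false)) ((T true).image (zf true))
    have h2 := (Finset.card_image_le (s := T false) (f := zf false)).trans (hT false)
    have h3 := (Finset.card_image_le (s := T true) (f := zf true)).trans (hT true)
    simp only [Z]; omega
  have hM : ∀ u : List Bool, ∃ M : Multiset C, u.length ≤ 30 →
      (∀ z ∈ M, z ∈ Z) ∧ M.card = u.length ∧ m u = M.prod.val * b * M.prod.val⁻¹ := by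
    intro u
    induction u with
    | nil => exact ⟨0, fun _ => ⟨by simp, by simp, by simp [h0]⟩⟩
    | cons i u ih =>
      obtain ⟨M, hM⟩ := ih
      set t : (GL (Fin 2) K) := M.prod.val with ht
      refine ⟨zf i (t⁻¹ * y i u * t⁻¹⁻¹) ::ₘ M, fun hu => ?_⟩
      have hu' : u.length < 30 := by simpa using hu
      obtain ⟨h1, h2, h3⟩ := hM hu'.le
      have hta : t⁻¹ * a * t⁻¹⁻¹ = a := by
        have := (hC t).1 M.prod.2
        rw [inv_inv, mul_assoc, ← this, inv_mul_cancel_left]
      have e1 : fw (gg a i) (t⁻¹ * y i u * t⁻¹⁻¹) = b := by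
        rw [← gg_conj hta i, fw_conj, hf i u hu', h3]; group
      have e2 : W a (t⁻¹ * y i u * t⁻¹⁻¹) ≠ 1 := by
        intro h
        apply hW i u hu'
        have := W_conj t⁻¹ a (y i u)
        rw [hta, h] at this
        calc W a (y i u) = t * (t⁻¹ * W a (y i u) * t⁻¹⁻¹) * t⁻¹ := by group
          _ = 1 := by rw [← this]; group
      have e3 := hzf i _ e2 e1
      rw [← gg_conj hta i, fb_conj, ← hm i u hu'] at e3
      refine ⟨?_, by simp [h2], ?_⟩
      · intro z hz
        rcases Multiset.mem_cons.1 hz with rfl | hz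
        · have := hT' i _ e1
          cases i
          · exact Finset.mem_union_left _ (Finset.mem_image_of_mem _ this)
          · exact Finset.mem_union_right _ (Finset.mem_image_of_mem _ this)
        · exact h1 z hz
      · rw [Multiset.prod_cons, mul_comm]
        change m (i :: u) = t * (zf i _).val * b * (t * (zf i _).val)⁻¹
        calc m (i :: u) = t * (t⁻¹ * m (i :: u) * t⁻¹⁻¹) * t⁻¹ := by group
          _ = _ := by rw [e3]; group
  choose M hM using hM
  have hcard : (Fintype.piFinset fun _ : Z => Finset.range 31).card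
      < (Finset.univ : Finset (Fin 30 → Bool)).card := by
    rw [Fintype.card_piFinset, Finset.prod_const, Finset.card_range, Finset.card_univ,
      Fintype.card_coe, Finset.card_univ, Fintype.card_fun, Fintype.card_bool, Fintype.card_fin]
    calc 31 ^ Z.card ≤ 31 ^ 6 := Nat.pow_le_pow_right (by norm_num) hZ
      _ < 2 ^ 30 := by norm_num
  obtain ⟨v, -, v', -, hne, heq⟩ := Finset.exists_ne_map_eq_of_card_lt_of_maps_to hcard
    (f := fun v (z : Z) => (M (List.ofFn v)).count z.val) (by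
      intro v _
      rw [Finset.mem_coe, Fintype.mem_piFinset]
      intro z
      have h1 := (hM (List.ofFn v) (by simp)).2.1
      have h2 := Multiset.count_le_card z.val (M (List.ofFn v))
      rw [List.length_ofFn] at h1
      rw [Finset.mem_range]
      show Multiset.count z.val (M (List.ofFn v)) < 31
      omega)
  obtain ⟨a1, -, a3⟩ := hM (List.ofFn v) (by simp)
  obtain ⟨b1, -, b3⟩ := hM (List.ofFn v') (by simp)
  have hMM : M (List.ofFn v) = M (List.ofFn v') := by
    ext z
    by_cases hz : z ∈ Z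
    · exact congrFun heq ⟨z, hz⟩
    · rw [Multiset.count_eq_zero_of_notMem fun h => hz (a1 z h),
        Multiset.count_eq_zero_of_notMem fun h => hz (b1 z h)]
  refine ⟨List.ofFn v, List.ofFn v', by simp, by simp, fun h => hne (List.ofFn_injective h), ?_⟩
  rw [a3, b3, hMM]

/-- the same for homomorphisms to a central quotient of `GL₂(K)` -/
lemma core_quot {G Q : Type*} [Group G] [Group Q] (π : (GL (Fin 2) K) →* Q) (hπ : Function.Surjective π)
    (hk : ∀ x, π x = 1 → ∀ w, w * x = x * w) (ρ : G →* Q)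
    (a b : G) (y : Bool → List Bool → G) (m : List Bool → G) (h0 : m [] = b)
    (hf : ∀ i u, u.length < 30 → fw (gg a i) (y i u) = m u)
    (hm : ∀ i u, u.length < 30 → m (i :: u) = fb (gg a i) (y i u)) :
    (∃ i u, u.length < 30 ∧ ρ (W a (y i u)) = 1) ∨ (∃ i, ρ (W (gg a i) b) = 1) ∨
      ∃ u u' : List Bool, u.length = 30 ∧ u'.length = 30 ∧ u ≠ u' ∧ ρ (m u * (m u')⁻¹) = 1 := by
  obtain ⟨A, hA⟩ := hπ (ρ a)
  obtain ⟨B, hB⟩ := hπ (ρ b)
  have lift : ∀ (i : Bool) (v : G) (N : (GL (Fin 2) K)), ∃ Y : (GL (Fin 2) K), π N = ρ (fw (gg a i) v) →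
      π Y = ρ v ∧ fw (gg A i) Y = N := by
    intro i v N
    obtain ⟨Y, hY⟩ := hπ (ρ v)
    refine ⟨Y * ((fw (gg A i) Y)⁻¹ * N), fun h => ?_⟩
    have h1 : π ((fw (gg A i) Y)⁻¹ * N) = 1 := by
      rw [map_mul, map_inv, h, map_fw, map_fw, map_gg, map_gg, hA, hY, inv_mul_cancel]
    refine ⟨by rw [map_mul, h1, hY, mul_one], ?_⟩
    rw [fw_central _ _ _ (hk _ h1), mul_inv_cancel_left]
  choose L hL using lift
  let N : List Bool → (GL (Fin 2) K) := fun u =>
    List.rec B (fun i u n => fb (gg A i) (L i (y i u) n)) u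
  have hN : ∀ u : List Bool, u.length ≤ 30 → π (N u) = ρ (m u) := by
    intro u
    induction u with
    | nil => intro _; rw [h0]; exact hB
    | cons i u ih =>
      intro hu
      have hu' : u.length < 30 := by simpa using hu
      have := (hL i (y i u) (N u) (by rw [ih hu'.le, hf i u hu'])).1
      change π (fb (gg A i) (L i (y i u) (N u))) = _
      rw [hm i u hu', map_fb, map_fb, map_gg, map_gg, hA, this]
  have hY : ∀ i u, u.length < 30 → π (L i (y i u) (N u)) = ρ (y i u) ∧
      fw (gg A i) (L i (y i u) (N u)) = N u := fun i u hu =>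
    hL i (y i u) (N u) (by rw [hN u hu.le, hf i u hu])
  by_contra hcon
  simp only [not_or, not_exists, not_and] at hcon
  obtain ⟨c1, c2, c3⟩ := hcon
  obtain ⟨u, u', hu, hu', hne, he⟩ := core A B (fun i u => L i (y i u) (N u)) N rfl
    (fun i u hu => (hY i u hu).2) (fun i u _ => rfl)
    (fun i u hu h => c1 i u hu (by rw [map_W, ← hA, ← (hY i u hu).1, ← map_W, h, map_one]))
    (fun i h => c2 i (by rw [map_W, map_gg, ← hA, ← hB, ← map_gg, ← map_W, h, map_one]))
  apply c3 u u' hu hu' hne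
  rw [map_mul, map_inv, ← hN u hu.le, ← hN u' hu'.le, he, mul_inv_cancel]

end Pool.Agent.MP_26f8ef_al

end

-- part MP_26f8ef_al.Main
section

/-! The parafree group and the element killed by all two-dimensional representations. -/

namespace Pool.Agent.MP_26f8ef_al

open Matrix
open scoped commutatorElement

abbrev F8 := FreeGroup (Fin 8)

/-- the ambient residually nilpotent group -/
abbrev Amb := (∀ k : ℕ, F8 ⧸ lcs F8 k) × G3

/-- images of the free generators in `GL₃(ℚ)` -/
noncomputable def gen3 : Fin 8 → G3 :=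
  ![A0, U 3 3 0, tv 0 1 (by decide), tv 0 2 (by decide), tv 1 0 (by decide), tv 1 2 (by decide),
    tv 2 0 (by decide), tv 2 1 (by decide)]

lemma D3_three : D3 3 := ⟨1, one_mem _, by norm_num⟩

lemma D3_zero : D3 0 := ⟨0, zero_mem _, by norm_num⟩

lemma gen3_mem (j : Fin 8) : gen3 j ∈ Gam 1 := by
  fin_cases j
  · exact A0_mem
  · exact U_mem D3_three D3_three D3_zero
  all_goals exact tv_mem _ _ (by decide)

lemma tv_range (i j : Fin 3) (h : i ≠ j) : ∃ k, gen3 k = tv i j h := by
  fin_cases i <;> fin_cases j <;> first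
    | exact (h rfl).elim
    | exact ⟨2, rfl⟩ | exact ⟨3, rfl⟩ | exact ⟨4, rfl⟩ | exact ⟨5, rfl⟩ | exact ⟨6, rfl⟩
    | exact ⟨7, rfl⟩

/-- the free group in the ambient group -/
noncomputable def iota : F8 →* Amb :=
  MonoidHom.prod (MonoidHom.pi fun k => QuotientGroup.mk' (lcs F8 k)) (FreeGroup.lift gen3)

lemma iota_snd (j : Fin 8) : (iota (.of j)).2 = gen3 j := FreeGroup.lift_apply_of

lemma exists_tree : ∃ (y : Bool → List Bool → Amb) (m : List Bool → Amb), m [] = iota (.of 1) ∧
    (∀ i u, fw (gg (iota (.of 0)) i) (y i u) = m u) ∧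
    (∀ i u, m (i :: u) = fb (gg (iota (.of 0)) i) (y i u)) ∧
    (∀ i u, ∃ η, Good η (y i u).2) ∧ ∀ u, Good (xi u) (m u).2 := by
  set a := iota (.of 0) with ha
  have ha2 : a.2 = A0 := iota_snd 0
  have sol : ∀ (i : Bool) (ξ : ℚ) (g : Amb), ∃ v : Amb, Good ξ g.2 →
      fw (gg a i) v = g ∧ (∃ η, Good η v.2) ∧ Good (mu i * ξ + cc i) (fb (gg a i) v).2 := by
    intro i ξ g
    obtain ⟨v2, hv2⟩ := good_step i ξ g.2
    choose v1 hv1 using fun k => exists_sol (lcs_quot F8 k) (gg (a.1 k) i) (g.1 k)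
    refine ⟨(v1, v2), fun h => ?_⟩
    obtain ⟨h1, h2, h3⟩ := hv2 h
    refine ⟨Prod.ext (funext fun k => ?_) ?_, h2, ?_⟩
    · rw [← hv1 k]; cases i <;> rfl
    · rw [← h1, ← ha2]; cases i <;> rfl
    · rw [← ha2] at h3; cases i <;> exact h3
  choose L hL using sol
  let m : List Bool → Amb := fun u =>
    List.rec (iota (.of 1)) (fun i u n => fb (gg a i) (L i (xi u) n)) u
  have hm : ∀ u, Good (xi u) (m u).2 := by
    intro u
    induction u with
    | nil =>
      refine ⟨3, 3, by norm_num, by norm_num, D3_three, D3_three, ?_, ?_⟩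
      · simpa [xi] using D3_zero
      · rw [show xi [] * 3 * 3 = 0 by simp [xi]]; exact iota_snd 1
    | cons i u ih => exact (hL i (xi u) (m u) ih).2.2
  exact ⟨fun i u => L i (xi u) (m u), m, rfl, fun i u => (hL i _ _ (hm u)).1, fun i u => rfl,
    fun i u => (hL i _ _ (hm u)).2.1, hm⟩

lemma combine {G : Type*} [Group G] (θ : G →* G3) (ht : ∀ i j h, tv i j h ∈ θ.range) (b : G)
    (hb : θ b ≠ 1) (db : GeneralLinearGroup.det (θ b) = 1) (E : Set G) (hE : E.Finite) :
    (∀ e ∈ E, θ e ≠ 1 ∧ GeneralLinearGroup.det (θ e) = 1) →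
      ∃ c, θ c ≠ 1 ∧ GeneralLinearGroup.det (θ c) = 1 ∧
        ∀ e ∈ E, ∀ N : Subgroup G, N.Normal → e ∈ N → c ∈ N := by
  induction E, hE using Set.Finite.induction_on with
  | empty => exact fun _ => ⟨b, hb, db, by simp⟩
  | @insert e E _ _ ih =>
    intro h
    obtain ⟨c, c1, c2, c3⟩ := ih fun e he => h e (Set.mem_insert_of_mem _ he)
    obtain ⟨e1, e2⟩ := h e (Set.mem_insert _ _)
    obtain ⟨_, ⟨w, rfl⟩, hw⟩ := exists_noncomm θ.range ht c1 e1 c2 e2
    refine ⟨⁅c, w * e * w⁻¹⁆, by simpa [map_commutatorElement] using hw, ?_, ?_⟩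
    · rw [map_commutatorElement, map_commutatorElement, commutatorElement_eq_one_iff_mul_comm,
        mul_comm]
    · intro e' he' N hN hmem
      rcases he' with rfl | he'
      · have h1 := hN.conj_mem _ hmem w
        rw [commutatorElement_def]
        exact mul_mem (hN.conj_mem _ h1 c) (inv_mem h1)
      · have h1 := c3 e' he' N hN hmem
        have h2 := hN.conj_mem _ (inv_mem h1) (w * e * w⁻¹)
        have := mul_mem h1 h2
        simpa only [commutatorElement_def, mul_assoc] using this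

lemma det_W (u v : G3) : GeneralLinearGroup.det (W u v) = 1 := by
  rw [W, map_commutatorElement, commutatorElement_eq_one_iff_mul_comm, mul_comm]

theorem main : ∃ (G : Type) (_ : Group G), Group.FG G ∧ (⨅ n, lcs G n) = ⊥ ∧
    (∀ n, Nonempty ((G ⧸ lcs G n) ≃* (F8 ⧸ lcs F8 n))) ∧
    ∃ g : G, g ≠ 1 ∧ ∀ (K : Type) [Field K] (Q : Type) [Group Q] (π : GL (Fin 2) K →* Q),
      Function.Surjective π → (∀ x, π x = 1 → ∀ w, w * x = x * w) → ∀ ρ : G →* Q, ρ g = 1 := by
  obtain ⟨yA, mA, h0, hf, hm, hy, hg⟩ := exists_tree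
  let s : Set Amb := Set.range (fun j => iota (.of j)) ∪
    Set.image2 yA Set.univ {u | u.length < 30}
  have hs : s.Finite := (Set.finite_range _).union
    (Set.finite_univ.image2 _ (List.finite_length_lt Bool 30))
  let G := Subgroup.closure s
  have hι : ∀ x, iota x ∈ G := by
    intro x
    induction x using FreeGroup.induction_on with
    | C1 => rw [map_one]; exact one_mem _
    | of j => exact Subgroup.subset_closure (Or.inl ⟨j, rfl⟩)
    | inv_of j h => rw [map_inv]; exact inv_mem h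
    | mul x y hx hy => rw [map_mul]; exact mul_mem hx hy
  let ι : F8 →* G := iota.codRestrict G hι
  have hyG : ∀ i u, u.length < 30 → yA i u ∈ G := fun i u hu =>
    Subgroup.subset_closure (Or.inr ⟨i, trivial, u, hu, rfl⟩)
  have hgG : ∀ i, gg (iota (.of 0)) i ∈ G := fun i => by rw [← map_gg]; exact hι _
  have hmG : ∀ u, u.length ≤ 30 → mA u ∈ G := by
    intro u hu
    cases u with
    | nil => rw [h0]; exact hι _
    | cons i u =>
      have := hyG i u (by simpa using hu)
      rw [hm, fb]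
      exact mul_mem (mul_mem (mul_mem (mul_mem (inv_mem (hgG i)) (inv_mem this)) (hgG i)) this)
        this
  have ey : ∀ i u, ∃ g : G, u.length < 30 → g.val = yA i u := fun i u => by
    by_cases h : u.length < 30
    exacts [⟨⟨_, hyG i u h⟩, fun _ => rfl⟩, ⟨1, fun h' => (h h').elim⟩]
  have em : ∀ u, ∃ g : G, u.length ≤ 30 → g.val = mA u := fun u => by
    by_cases h : u.length ≤ 30
    exacts [⟨⟨_, hmG u h⟩, fun _ => rfl⟩, ⟨1, fun h' => (h h').elim⟩]
  choose y ey using ey
  choose m em using em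
  set a : G := ι (.of 0) with ha
  set b : G := ι (.of 1) with hb
  have g0 : m [] = b := Subtype.ext (by rw [em _ (by simp), h0]; rfl)
  have gf : ∀ i u, u.length < 30 → fw (gg a i) (y i u) = m u := fun i u hu => by
    apply Subtype.ext
    change G.subtype (fw (gg a i) (y i u)) = (m u).val
    rw [map_fw, map_gg, em u hu.le, ← hf i u, ← ey i u hu]; rfl
  have gm : ∀ i u, u.length < 30 → m (i :: u) = fb (gg a i) (y i u) := fun i u hu => by
    apply Subtype.ext
    change (m (i :: u)).val = G.subtype (fb (gg a i) (y i u))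
    rw [map_fb, map_gg, em _ (by simpa using hu), hm, ← ey i u hu]; rfl
  let θ : G →* G3 := (MonoidHom.snd _ _).comp G.subtype
  let φ : ∀ k, G →* F8 ⧸ lcs F8 k := fun k =>
    (Pi.evalMonoidHom _ k).comp ((MonoidHom.fst _ _).comp G.subtype)
  have hθ : ∀ g, θ g ∈ Gam 1 := by
    have : G ≤ (Gam 1).comap (MonoidHom.snd _ _) := by
      rw [Subgroup.closure_le]
      rintro _ (⟨j, rfl⟩ | ⟨i, -, u, -, rfl⟩)
      · change (iota (.of j)).2 ∈ Gam 1
        rw [iota_snd]; exact gen3_mem j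
      · obtain ⟨η, x1, x2, -, -, d1, d2, d3, e⟩ := hy i u
        change (yA i u).2 ∈ Gam 1
        rw [e]; exact U_mem d1 d2 d3
    exact fun g => this g.2
  have θa : θ a = A0 := iota_snd 0
  have θb : θ b = U 3 3 0 := iota_snd 1
  refine ⟨G, inferInstance, ?_, ?_, fun k => ?_, ?_⟩
  · have := hs.to_subtype
    exact Group.closure_finite_fg s
  · rw [eq_bot_iff]
    intro x hx
    rw [Subgroup.mem_iInf] at hx
    rw [Subgroup.mem_bot]
    apply Subtype.ext
    refine Prod.ext (funext fun k => ?_) (Gam_sep fun j => lcs_Gam θ hθ j (hx j))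
    have := map_lcs_le (φ k) k (hx k)
    rwa [lcs_quot, Subgroup.mem_bot] at this
  · refine quot_equiv k ι (φ k) (fun x => rfl) ?_
    set H := ι.range ⊔ lcs G k with hH
    have hι' : ∀ x, ι x ∈ H := fun x => Subgroup.mem_sup_left ⟨x, rfl⟩
    have hg' : ∀ i, gg a i ∈ H := fun i => by rw [ha, ← map_gg]; exact hι' _
    have key : ∀ i u, u.length < 30 → m u ∈ H → y i u ∈ H := fun i u hu h =>
      sol_mem H le_sup_right (hg' i) (by rwa [gf i u hu])
    have hmH : ∀ u, u.length ≤ 30 → m u ∈ H := by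
      intro u
      induction u with
      | nil => intro _; rw [g0]; exact hι' _
      | cons i u ih =>
        intro hu
        have hu' : u.length < 30 := by simpa using hu
        have := key i u hu' (ih hu'.le)
        rw [gm i u hu', fb]
        exact mul_mem (mul_mem (mul_mem (mul_mem (inv_mem (hg' i)) (inv_mem this)) (hg' i)) this)
          this
    rw [eq_top_iff, ← Subgroup.closure_closure_coe_preimage, Subgroup.closure_le]
    rintro g (⟨j, hj⟩ | ⟨i, -, u, hu, hj⟩)
    · have : g = ι (.of j) := Subtype.ext hj.symm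
      rw [this]; exact hι' _
    · have : g = y i u := Subtype.ext (by rw [ey i u hu]; exact hj.symm)
      rw [this]; exact key i u hu (hmH u (le_of_lt hu))
  · let E : Set G := {e | (∃ i u, u.length < 30 ∧ e = W a (y i u)) ∨ (∃ i, e = W (gg a i) b) ∨
      ∃ u u' : List Bool, u.length = 30 ∧ u'.length = 30 ∧ u ≠ u' ∧ e = m u * (m u')⁻¹}
    have hI := List.finite_length_le Bool 30
    have hE : E.Finite := by
      refine (((Set.finite_univ.image2 (fun i u => W a (y i u)) hI).union
        (Set.finite_range fun i => W (gg a i) b)).union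
        (hI.image2 (fun u u' => m u * (m u')⁻¹) hI)).subset ?_
      rintro _ (⟨i, u, hu, rfl⟩ | ⟨i, rfl⟩ | ⟨u, u', hu, hu', -, rfl⟩)
      · exact Or.inl (Or.inl ⟨i, trivial, u, hu.le, rfl⟩)
      · exact Or.inl (Or.inr ⟨i, rfl⟩)
      · exact Or.inr ⟨u, hu.le, u', hu'.le, rfl⟩
    have ht : ∀ i j h, tv i j h ∈ θ.range := fun i j h => by
      obtain ⟨k, hk⟩ := tv_range i j h
      exact ⟨ι (.of k), (iota_snd k).trans hk⟩
    have hb1 : θ b ≠ 1 := by
      rw [θb]
      intro h
      have : U 3 3 0 = U 0 0 0 := h.trans (Units.ext (by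
        ext i j; fin_cases i <;> fin_cases j <;> simp [U_val]))
      exact absurd (U_inj this).1 (by norm_num)
    obtain ⟨c, c1, -, c3⟩ := combine θ ht b hb1 (by rw [θb, U_det]) E hE (by
      rintro _ (⟨i, u, hu, rfl⟩ | ⟨i, rfl⟩ | ⟨u, u', hu, hu', hne, rfl⟩)
      · obtain ⟨η, x1, x2, n1, n2, -, -, -, e⟩ := hy i u
        have : θ (y i u) = U x1 x2 (η * x1 * x2) := by
          rw [← e, ← ey i u hu]; rfl
        rw [map_W, θa, this]
        exact ⟨W_U false _ n1 n2, det_W _ _⟩
      · rw [map_W, map_gg, θa, θb]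
        exact ⟨W_U i _ (by norm_num) (by norm_num), det_W _ _⟩
      · obtain ⟨x1, x2, n1, n2, -, -, -, e⟩ := hg u
        obtain ⟨x1', x2', -, -, -, -, -, e'⟩ := hg u'
        have t1 : θ (m u) = U x1 x2 (xi u * x1 * x2) := by rw [← e, ← em u hu.le]; rfl
        have t2 : θ (m u') = U x1' x2' (xi u' * x1' * x2') := by rw [← e', ← em u' hu'.le]; rfl
        rw [map_mul, map_inv, t1, t2]
        refine ⟨fun h => hne ?_, by rw [map_mul, map_inv, U_det, U_det, inv_one, mul_one]⟩
        obtain ⟨rfl, rfl, h3⟩ := U_inj (mul_inv_eq_one.1 h)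
        exact xi_inj u u' (hu.trans hu'.symm) (mul_right_cancel₀ n1 (mul_right_cancel₀ n2 h3)))
    refine ⟨c, fun h => c1 (by rw [h, map_one]), fun K _ Q _ π hπ hk ρ => ?_⟩
    rcases core_quot π hπ hk ρ a b y m g0 gf gm with
      ⟨i, u, hu, h⟩ | ⟨i, h⟩ | ⟨u, u', hu, hu', hne, h⟩
    · exact c3 _ (Or.inl ⟨i, u, hu, rfl⟩) ρ.ker inferInstance h
    · exact c3 _ (Or.inr (Or.inl ⟨i, rfl⟩)) ρ.ker inferInstance h
    · exact c3 _ (Or.inr (Or.inr ⟨u, u', hu, hu', hne, rfl⟩)) ρ.ker inferInstance h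

end Pool.Agent.MP_26f8ef_al

end
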